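import Pool.Agent.Y989.HP.AllD
import Pool.Agent.Results.MP_6c8efb_pr.SpecialPoints

/-!
# The half-plane exploration path of critical bond percolation: the double points at all times

Critical bond percolation on `ℤ × ℕ`, the edges `[x, x + 1]` of the real axis open for `x < 0` and
closed for `x ≥ 0`. The exploration path starts next to the origin and keeps the open cluster of
the negative half-axis on its left; `gam ω k` is its point after `k` steps, and `curve n ω` is the
path `n ^ (-4/7) γ(n t)`, `0 ≤ t ≤ 1`, with law `lawH n`. Weak limits exist along a subsequence of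
every sequence `n → ∞`.

For every weak limit, almost surely, simultaneously for ALL times `t > 0`, the points of the open
half-plane which the curve visits at least twice before time `t` form a set of Hausdorff dimension
exactly `3/4`, and the times `s ≤ t` at which the curve is at such a point form a set of dimension
exactly `3/7`; the same holds for the double points in any half-disc around the origin.

Definitions: `Pool.Agent.H984R4.HN.HPDefs` (`Conf`, `perc`, `opn`, `step`, `path`, `place`, `gam`,
`curve`), `Pool.Agent.H984R4.HN.FinalH` (`lawH`), `Pool.Agent.H984R4.NP.Model` (`pl`, `clamp`).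

The upper bounds are in the starting file `SpecialPoints`; the lower bounds are new. They use the
lattice results on four arms of the starting files for the rectangle (`W92/DP`, `W347`, `W571`,
`W598`, `W52`, `W801`) and project HP (`Pool.Agent.Y989.HP`): the path of the half-plane is the path
of a box run backwards until it leaves the box, and good vertices are visited twice before any
given time because the cluster of a half-box does not reach far (helper587, helper48).
-/

set_option autoImplicit false

namespace Pool.Agent.Results.MP_6c8efb_pr.DoublePointsExact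

open H984H MeasureTheory Filter Topology
open scoped ENNReal NNReal

/-- The points of the open half-disc of radius `r` around the origin which `f` visits at least twice
up to time `t`. -/
def doublePoints (f : C(unitInterval, ℂ)) (t : unitInterval) (r : ℝ) : Set ℂ :=
  {z | 0 < z.im ∧ ‖z‖ < r ∧ ∃ s u : unitInterval, s < u ∧ u ≤ t ∧ f s = z ∧ f u = z}

/-- The points of the open half-plane which `f` visits at least twice up to time `t`. -/
def allDoublePoints (f : C(unitInterval, ℂ)) (t : unitInterval) : Set ℂ :=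
  {z | 0 < z.im ∧ ∃ s u : unitInterval, s < u ∧ u ≤ t ∧ f s = z ∧ f u = z}

/-- The times up to `t` at which `f` is in `S`. -/
def timesUpTo (f : C(unitInterval, ℂ)) (t : unitInterval) (S : Set ℂ) : Set unitInterval :=
  {s | s ≤ t ∧ f s ∈ S}

theorem times_dim {f : C(unitInterval, ℂ)} (hu : ∀ E : Set unitInterval,
    dimH (f '' E) = 7 / 4 * dimH E) {t : unitInterval} {S : Set ℂ}
    (hS : ∀ z ∈ S, ∃ s : unitInterval, s ≤ t ∧ f s = z) (h : dimH S = 3 / 4) :
    dimH (timesUpTo f t S) = 3 / 7 := by
  have e : f '' (timesUpTo f t S) = S := by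
    ext z
    constructor
    · rintro ⟨s, ⟨-, hs⟩, rfl⟩
      exact hs
    · intro hz
      obtain ⟨s, hs, rfl⟩ := hS z hz
      exact ⟨s, ⟨hs, hz⟩, rfl⟩
  have h4 := hu (timesUpTo f t S)
  rw [e, h] at h4
  have a1 : (4 / 7 : ℝ≥0∞) = ENNReal.ofReal (4 / 7) := by
    rw [ENNReal.ofReal_div_of_pos (by norm_num)]; norm_num
  have a2 : (7 / 4 : ℝ≥0∞) = ENNReal.ofReal (7 / 4) := by
    rw [ENNReal.ofReal_div_of_pos (by norm_num)]; norm_num
  have a3 : (3 / 4 : ℝ≥0∞) = ENNReal.ofReal (3 / 4) := by
    rw [ENNReal.ofReal_div_of_pos (by norm_num)]; norm_num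
  have a4 : (3 / 7 : ℝ≥0∞) = ENNReal.ofReal (3 / 7) := by
    rw [ENNReal.ofReal_div_of_pos (by norm_num)]; norm_num
  have e2 : (4 / 7 : ℝ≥0∞) * (7 / 4) = 1 := by
    rw [a1, a2, ← ENNReal.ofReal_mul (by norm_num)]
    norm_num
  calc dimH (timesUpTo f t S) = 4 / 7 * (7 / 4 * dimH (timesUpTo f t S)) := by
        rw [← mul_assoc, e2, one_mul]
    _ = 4 / 7 * (3 / 4) := by rw [← h4]
    _ = 3 / 7 := by
        rw [a1, a3, a4, ← ENNReal.ofReal_mul (by norm_num)]
        norm_num

theorem result :
    (∀ φ : ℕ → ℕ, Tendsto φ atTop atTop → ∃ ψ : ℕ → ℕ, StrictMono ψ ∧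
      ∃ μ : ProbabilityMeasure C(unitInterval, ℂ),
        Tendsto (fun i => lawH (φ (ψ i))) atTop (𝓝 μ)) ∧
    (∀ φ : ℕ → ℕ, Tendsto φ atTop atTop → ∀ μ : ProbabilityMeasure C(unitInterval, ℂ),
      Tendsto (fun i => lawH (φ i)) atTop (𝓝 μ) →
      ∀ᵐ f : C(unitInterval, ℂ) ∂(μ : Measure C(unitInterval, ℂ)), ∀ t : unitInterval, 0 < t →
        dimH (allDoublePoints f t) = 3 / 4 ∧
        dimH (timesUpTo f t (allDoublePoints f t)) = 3 / 7 ∧
        ∀ r : ℝ, 0 < r → dimH (doublePoints f t r) = 3 / 4 ∧
          dimH (timesUpTo f t (doublePoints f t r)) = 3 / 7) := by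
  refine ⟨UniformDimension.result.1, fun φ hφ μ hμ => ?_⟩
  filter_upwards [UniformDimension.result.2 φ hφ μ hμ, (SpecialPoints.result.2 φ hφ μ hμ).2.1,
    Pool.Agent.Y989.HP.lowerD hφ hμ] with f hu hs hl t ht
  have hup : dimH (allDoublePoints f t) ≤ 3 / 4 := by
    refine (dimH_mono ?_).trans hs.1
    rintro z ⟨h1, s, u, h2, -, h3, h4⟩
    exact ⟨⟨s, u, h2, h3, h4⟩, h1⟩
  have hsub : ∀ r : ℝ, doublePoints f t r ⊆ allDoublePoints f t := by
    rintro r z ⟨h1, -, h2⟩
    exact ⟨h1, h2⟩
  have hlow : ∀ r : ℝ, 0 < r → 3 / 4 ≤ dimH (doublePoints f t r) := fun r hr => hl t ht r hr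
  have hS : ∀ z ∈ allDoublePoints f t, ∃ s : unitInterval, s ≤ t ∧ f s = z := by
    rintro z ⟨-, s, u, -, h3, -, h4⟩
    exact ⟨u, h3, h4⟩
  have hall : dimH (allDoublePoints f t) = 3 / 4 :=
    le_antisymm hup ((hlow 1 one_pos).trans (dimH_mono (hsub 1)))
  refine ⟨hall, times_dim hu hS hall, fun r hr => ?_⟩
  have heq : dimH (doublePoints f t r) = 3 / 4 :=
    le_antisymm ((dimH_mono (hsub r)).trans hup) (hlow r hr)
  exact ⟨heq, times_dim hu (fun z hz => hS z (hsub r hz)) heq⟩

end Pool.Agent.Results.MP_6c8efb_pr.DoublePointsExact
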