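import Pool.Agent.Y994.HS.HAsm
import Pool.Agent.Y994.HS.HLimit
import Pool.Agent.Y994.MC.Haus
import Pool.Agent.H984R3.Per.UpPi
import Pool.Agent.H984R3.Per.LowEV
import Pool.Agent.H985R3.TA.Main
import Pool.Agent.H985R3.TA.STA

/-!
# Area of the neighbourhoods of the half-plane exploration path of critical bond percolation

Critical bond percolation on `ℤ × ℕ`, the edges `[x, x + 1]` of the real axis open for `x < 0` and
closed for `x ≥ 0`; `gam ω k` is the point of the exploration path after `k` steps and `curve n ω`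
is the path `n ^ (-4/7) γ(n t)`, `0 ≤ t ≤ 1`.

There are constants `c, C > 0` such that

* almost surely, for all large `n`, all `k ≤ l ≤ n` and all radii `r ≥ 1` with
  `l - k ≥ C r ^ (7/4) log n`, the area of the `r`-neighbourhood of the piece `γ [k, l]` of the
  lattice path is between `c r ^ (1/4) (l - k)` and `C r ^ (1/4) (l - k)`;
* subsequential scaling limits exist, and for every one of them, almost surely, for all small `ρ`
  the area of the `ρ`-neighbourhood of every arc `f [s, t]` with `t - s ≥ C ρ ^ (7/4) log (1/ρ)`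
  is between `c (t - s) ρ ^ (1/4)` and `C (t - s) ρ ^ (1/4)`, and the `7/4`-dimensional Hausdorff
  measure of every arc `f [s, t]` is at most `C (t - s)`.

Definitions: `Pool.Agent.H984R4.HN.HPDefs` (`Conf`, `perc`, `opn`, `step`, `path`, `place`, `gam`,
`curve`), `Pool.Agent.H984R4.HN.FinalH` (`lawH`), `Pool.Agent.H984R4.NP.Model` (`pl`, `clamp`).
-/

namespace Pool.Agent.Results.MP_6c8efb_pr.SausageLaw

open H984H MeasureTheory Filter Topology

/-- The two-arm bounds in the form used below. -/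
theorem inputs : (∃ c : ℝ, 0 < c ∧ H984P.LowA c (1/4)) ∧
    (∃ C : ℝ, 0 < C ∧ H342P.TwoUp C (1/4)) ∧ (∃ C : ℝ, 0 < C ∧ AnnUp C) := by
  refine ⟨?_, ?_, ?_⟩
  · obtain ⟨B, m0, κ, hκ, h⟩ := H985T.EV_lower
    obtain ⟨c, hc, h2⟩ := H984P.lowA_of_EV (B := B) (m0 := m0) (s := 1/4) hκ (by norm_num)
      (fun m hm => by
        obtain ⟨ρ, c, s, c', f0, h1, h2, h3⟩ := h m hm
        exact ⟨ρ, c, s, c', f0, h2, h1, h3⟩)
    exact ⟨c, hc, h2⟩
  · obtain ⟨C, hC, h⟩ := H985T.pi2_upper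
    exact ⟨C, hC, H984P.twoUp_of_pi2 hC (by norm_num) h⟩
  · obtain ⟨C, hC, h⟩ := H985T.st_A
    exact ⟨C, hC, fun r R hr hR c1 c2 S => h r R hr hR c1 c2 S⟩

theorem result : ∃ c C : ℝ, 0 < c ∧ 0 < C ∧
    (∀ᵐ ω ∂perc, ∀ᶠ n : ℕ in atTop, ∀ k l : ℕ, k ≤ l → l ≤ n → ∀ r : ℝ, 1 ≤ r →
      C * r ^ (7/4 : ℝ) * Real.log n ≤ (l : ℝ) - k →
        c * r ^ (1/4 : ℝ) * ((l : ℝ) - k) ≤
          (volume (Metric.thickening r (gam ω '' Set.Icc k l))).toReal ∧
        (volume (Metric.thickening r (gam ω '' Set.Icc k l))).toReal ≤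
          C * r ^ (1/4 : ℝ) * ((l : ℝ) - k)) ∧
    (∀ φ : ℕ → ℕ, Tendsto φ atTop atTop → ∃ ψ : ℕ → ℕ, StrictMono ψ ∧
      ∃ μ : ProbabilityMeasure C(unitInterval, ℂ),
        Tendsto (fun i => lawH (φ (ψ i))) atTop (𝓝 μ)) ∧
    (∀ φ : ℕ → ℕ, Tendsto φ atTop atTop → ∀ μ : ProbabilityMeasure C(unitInterval, ℂ),
      Tendsto (fun i => lawH (φ i)) atTop (𝓝 μ) →
      ∀ᵐ f : C(unitInterval, ℂ) ∂(μ : Measure C(unitInterval, ℂ)),
        (∀ᶠ ρ : ℝ in 𝓝[>] 0, ∀ s t : unitInterval, s ≤ t →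
          C * ρ ^ (7/4 : ℝ) * Real.log (1 / ρ) ≤ (t : ℝ) - s →
            c * ((t : ℝ) - s) * ρ ^ (1/4 : ℝ) ≤
              (volume (Metric.thickening ρ (f '' Set.Icc s t))).toReal ∧
            (volume (Metric.thickening ρ (f '' Set.Icc s t))).toReal ≤
              C * ((t : ℝ) - s) * ρ ^ (1/4 : ℝ)) ∧
        ∀ s t : unitInterval, s ≤ t →
          Measure.hausdorffMeasure (7/4 : ℝ) (f '' Set.Icc s t) ≤
            ENNReal.ofReal (C * ((t : ℝ) - s))) := by
  obtain ⟨⟨c, hc, hL⟩, ⟨C, hC, hU⟩, C2, hC2, hA⟩ := inputs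
  obtain ⟨c0, C0, hc0, hC0, hlat⟩ := Y994.HS.sausage hc hC hL hU
  obtain ⟨K, hK1, hmesh⟩ := Y994.HS.meshH hc hC hL hU
  have hK : 0 < K := by linarith
  obtain ⟨-, -, -, hsub, -⟩ := finalH hc hC hL hU hC2 hA
  refine ⟨min c0 (1 / (8 * K)), max C0 (8 * (968 * K)), lt_min hc0 (by positivity),
    lt_max_of_lt_left hC0, ?_, hsub, fun φ hφ μ hμ => ?_⟩
  · filter_upwards [hlat] with ω hω
    filter_upwards [hω] with n hn k l hkl hl r hr hT
    have hlog : 0 ≤ Real.log n := Real.log_natCast_nonneg n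
    have hr7 : 0 ≤ r ^ (7/4 : ℝ) := Real.rpow_nonneg (by linarith) _
    have hr4 : 0 ≤ r ^ (1/4 : ℝ) := Real.rpow_nonneg (by linarith) _
    have hkl' : (k:ℝ) ≤ l := by exact_mod_cast hkl
    obtain ⟨g1, g2⟩ := hn k l hkl hl r hr (by
      refine le_trans ?_ hT
      exact mul_le_mul_of_nonneg_right (mul_le_mul_of_nonneg_right (le_max_left _ _) hr7) hlog)
    constructor
    · refine le_trans ?_ g1
      exact mul_le_mul_of_nonneg_right (mul_le_mul_of_nonneg_right (min_le_left _ _) hr4)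
        (by linarith)
    · refine le_trans g2 ?_
      exact mul_le_mul_of_nonneg_right (mul_le_mul_of_nonneg_right (le_max_left _ _) hr4)
        (by linarith)
  · filter_upwards [Y994.HS.lim_aeH hK hmesh hφ hμ] with f hf
    have h0 := Y994.MD.all_two hK1 (Y994.MD.all_gen (p := (f, (1:ℝ))) hK one_pos hf)
    have h1 : ∀ᶠ ρ : ℝ in 𝓝[>] 0, ∀ s t : unitInterval, s ≤ t →
        968 * K * ρ ^ (7/4 : ℝ) * Real.log (1 / ρ) ≤ ((t:ℝ) - s) →
        1 / (8 * K) * ((t:ℝ) - s) * ρ ^ (1/4 : ℝ) ≤ Y994.MC.ar ρ f s t ∧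
        Y994.MC.ar ρ f s t ≤ 968 * K * ((t:ℝ) - s) * ρ ^ (1/4 : ℝ) := by
      filter_upwards [h0] with ρ hρ s t hst hT
      have := hρ s t hst (by simpa using hT)
      simpa using this
    constructor
    · have hev : ∀ᶠ ρ : ℝ in 𝓝[>] 0, 0 < ρ ∧ ρ < 1 :=
        Filter.Eventually.and self_mem_nhdsWithin (nhdsWithin_le_nhds (gt_mem_nhds one_pos))
      filter_upwards [h1, hev] with ρ hρ hρ1 s t hst hT
      obtain ⟨hρ0, hρ1⟩ := hρ1
      have hst' : (s:ℝ) ≤ t := hst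
      have hL0 : 0 ≤ Real.log (1 / ρ) := Real.log_nonneg (by rw [le_div_iff₀ hρ0]; linarith)
      have h4 : 0 < ρ ^ (1/4 : ℝ) := Real.rpow_pos_of_pos hρ0 _
      have h7 : 0 < ρ ^ (7/4 : ℝ) := Real.rpow_pos_of_pos hρ0 _
      have hCK : 968 * K ≤ max C0 (8 * (968 * K)) := le_trans (by linarith) (le_max_right _ _)
      obtain ⟨g1, g2⟩ := hρ s t hst (by
        refine le_trans ?_ hT
        exact mul_le_mul_of_nonneg_right (mul_le_mul_of_nonneg_right hCK h7.le) hL0)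
      constructor
      · refine le_trans ?_ g1
        exact mul_le_mul_of_nonneg_right (mul_le_mul_of_nonneg_right (min_le_right _ _)
          (by linarith)) h4.le
      · refine le_trans g2 ?_
        exact mul_le_mul_of_nonneg_right (mul_le_mul_of_nonneg_right hCK (by linarith)) h4.le
    · intro s t hst
      have hst' : (s:ℝ) ≤ t := hst
      have h2 := Y994.MC.haus_all (p := (f, (1:ℝ))) (by positivity) one_pos
        (Y994.MD.all_34 one_pos h0) s t hst
      refine h2.trans (ENNReal.ofReal_le_ofReal ?_)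
      have h3 : 8 * (968 * K) ≤ max C0 (8 * (968 * K)) := le_max_right _ _
      have h4 := mul_le_mul_of_nonneg_right h3 (show 0 ≤ (t:ℝ) - s by linarith)
      simpa using h4

end Pool.Agent.Results.MP_6c8efb_pr.SausageLaw
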