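import Pool.Agent.Y989.HP.All
import Pool.Agent.Results.MP_6c8efb_pr.SpecialPoints

/-!
# The half-plane exploration path of critical bond percolation: the sides of the past at all times

Critical bond percolation on `ℤ × ℕ`, the edges `[x, x + 1]` of the real axis open for `x < 0` and
closed for `x ≥ 0`. The exploration path starts next to the origin and keeps the open cluster of
the negative half-axis on its left; `gam ω k` is its point after `k` steps, and `curve n ω` is the
path `n ^ (-4/7) γ(n t)`, `0 ≤ t ≤ 1`, with law `lawH n`. Weak limits exist along a subsequence of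
every sequence `n → ∞`.

For every weak limit, almost surely, simultaneously for ALL times `t > 0`, the union of the
boundaries of the components of the complement of the past `f [0, t]` has Hausdorff dimension
exactly `4/3`, and the set of times at which `f` is there has dimension exactly `16/21`. The same
dimensions hold for the points of any half-disc around the origin which are visited before `t` and
which lie on the boundary of a component of the complement of `f [0, t']` for all `t' ≥ t`, and for
the set of all the points which, for some `t`, are on the boundary of a component of the complement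
of `f [0, t]` and are not the tip `f t`.

Definitions: `Pool.Agent.H984R4.HN.HPDefs` (`Conf`, `perc`, `opn`, `step`, `path`, `place`, `gam`,
`curve`), `Pool.Agent.H984R4.HN.FinalH` (`lawH`), `Pool.Agent.H984R4.NP.Model` (`pl`, `clamp`).

The upper bounds are in the starting file `SpecialPoints`; the lower bounds are new. They use the
library of project FR (`Pool.Agent.Y989.FR`, thick accessible points) and project HP
(`Pool.Agent.Y989.HP`): the cluster of a half-box does not reach far, so that good vertices are
visited before any given time, and the thick path keeps away from the whole path. Steps were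
formalised by helper48, 587, 839 (HP) and by the helpers named in
`Pool.Agent.Results.MP_fe58d8_pr.FrontierDimension` (FR).
-/

set_option autoImplicit false

namespace Pool.Agent.Results.MP_6c8efb_pr.SidesExact

open H984H MeasureTheory Filter Topology
open scoped ENNReal NNReal

/-- The union of the boundaries of all connected components of the complement of `K`. -/
def sides (K : Set ℂ) : Set ℂ := ⋃ x : ℂ, frontier (connectedComponentIn Kᶜ x)

/-- The points of the curve before time `t` which belong to `sides (f [0, t'])` for all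
`t' ≥ t`. -/
def permanentSides (f : C(unitInterval, ℂ)) (t : unitInterval) : Set ℂ :=
  {z | z ∈ f '' Set.Icc 0 t ∧ ∀ t' : unitInterval, t ≤ t' → z ∈ sides (f '' Set.Icc 0 t')}

/-- The points which at some time `t` lie on the boundary of a component of the complement of the
past `f [0, t]` and are different from the current point `f t`. -/
def sweptSides (f : C(unitInterval, ℂ)) : Set ℂ :=
  {w | ∃ t : unitInterval, w ∈ sides (f '' Set.Icc 0 t) ∧ w ≠ f t}

/-- The open half-disc of radius `r` around the origin. -/
def halfDisc (r : ℝ) : Set ℂ := {w | 0 < w.im ∧ ‖w‖ < r}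

/-- The times at which `f` is in `S`. -/
def times (f : C(unitInterval, ℂ)) (S : Set ℂ) : Set unitInterval := {s | f s ∈ S}

theorem sides_sub {K : Set ℂ} (hK : IsClosed K) : sides K ⊆ K := by
  intro w hw
  obtain ⟨x, hx⟩ := Set.mem_iUnion.1 hw
  by_contra hcon
  have h1 : w ∈ closure (connectedComponentIn Kᶜ x) := hx.1
  have hopen : IsOpen (connectedComponentIn Kᶜ w) := hK.isOpen_compl.connectedComponentIn
  obtain ⟨y, hy1, hy2⟩ := mem_closure_iff.1 h1 _ hopen (mem_connectedComponentIn hcon)
  have h3 := connectedComponentIn_eq hy1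
  have h4 := connectedComponentIn_eq hy2
  have h5 : w ∈ connectedComponentIn Kᶜ x := by
    rw [h4, ← h3]
    exact mem_connectedComponentIn hcon
  have h6 : IsOpen (connectedComponentIn Kᶜ x) := hK.isOpen_compl.connectedComponentIn
  have h7 := hx.2
  rw [h6.interior_eq] at h7
  exact h7 h5

theorem past_closed (f : C(unitInterval, ℂ)) (t : unitInterval) : IsClosed (f '' Set.Icc 0 t) :=
  (isCompact_Icc.image f.continuous).isClosed

theorem past_sub (f : C(unitInterval, ℂ)) (t : unitInterval) :
    f '' Set.Icc 0 t ⊆ Set.range f := Set.image_subset_range _ _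

theorem times_dim {f : C(unitInterval, ℂ)} (hu : ∀ E : Set unitInterval,
    dimH (f '' E) = 7 / 4 * dimH E) {S : Set ℂ} (hS : S ⊆ Set.range f) (h : dimH S = 4 / 3) :
    dimH (times f S) = 16 / 21 := by
  have e : f '' (times f S) = S := by
    have h1 : f '' (times f S) = Set.range f ∩ S := Set.image_preimage_eq_range_inter
    rw [h1]
    exact Set.inter_eq_right.2 hS
  have h4 := hu (times f S)
  rw [e, h] at h4
  have a1 : (4 / 7 : ℝ≥0∞) = ENNReal.ofReal (4 / 7) := by
    rw [ENNReal.ofReal_div_of_pos (by norm_num)]; norm_num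
  have a2 : (7 / 4 : ℝ≥0∞) = ENNReal.ofReal (7 / 4) := by
    rw [ENNReal.ofReal_div_of_pos (by norm_num)]; norm_num
  have a3 : (4 / 3 : ℝ≥0∞) = ENNReal.ofReal (4 / 3) := by
    rw [ENNReal.ofReal_div_of_pos (by norm_num)]; norm_num
  have a4 : (16 / 21 : ℝ≥0∞) = ENNReal.ofReal (16 / 21) := by
    rw [ENNReal.ofReal_div_of_pos (by norm_num)]; norm_num
  have e2 : (4 / 7 : ℝ≥0∞) * (7 / 4) = 1 := by
    rw [a1, a2, ← ENNReal.ofReal_mul (by norm_num)]
    norm_num
  calc dimH (times f S) = 4 / 7 * (7 / 4 * dimH (times f S)) := by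
        rw [← mul_assoc, e2, one_mul]
    _ = 4 / 7 * (4 / 3) := by rw [← h4]
    _ = 16 / 21 := by
        rw [a1, a3, a4, ← ENNReal.ofReal_mul (by norm_num)]
        norm_num

/-- The real line. -/
def line : Set ℂ := {z | z.im = 0}

theorem dim_line : dimH line ≤ 4 / 3 := by
  have h1 : line ⊆ Set.range (fun x : ℝ => (x : ℂ)) := by
    intro z hz
    exact ⟨z.re, Complex.ext rfl (by simpa using (Eq.symm hz))⟩
  have h2 : LipschitzWith 1 (fun x : ℝ => (x : ℂ)) := Complex.isometry_ofReal.lipschitz
  have h3 := h2.dimH_range_le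
  rw [Real.dimH_univ] at h3
  refine (dimH_mono h1).trans (h3.trans ?_)
  rw [ENNReal.le_div_iff_mul_le (by norm_num) (by norm_num)]
  norm_num

theorem result :
    (∀ φ : ℕ → ℕ, Tendsto φ atTop atTop → ∃ ψ : ℕ → ℕ, StrictMono ψ ∧
      ∃ μ : ProbabilityMeasure C(unitInterval, ℂ),
        Tendsto (fun i => lawH (φ (ψ i))) atTop (𝓝 μ)) ∧
    (∀ φ : ℕ → ℕ, Tendsto φ atTop atTop → ∀ μ : ProbabilityMeasure C(unitInterval, ℂ),
      Tendsto (fun i => lawH (φ i)) atTop (𝓝 μ) →
      ∀ᵐ f : C(unitInterval, ℂ) ∂(μ : Measure C(unitInterval, ℂ)),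
        (∀ t : unitInterval, 0 < t →
          dimH (sides (f '' Set.Icc 0 t)) = 4 / 3 ∧
          dimH (times f (sides (f '' Set.Icc 0 t))) = 16 / 21 ∧
          ∀ r : ℝ, 0 < r →
            dimH (permanentSides f t ∩ halfDisc r) = 4 / 3 ∧
            dimH (times f (permanentSides f t ∩ halfDisc r)) = 16 / 21) ∧
        dimH (sweptSides f) = 4 / 3 ∧ dimH (times f (sweptSides f)) = 16 / 21) := by
  refine ⟨UniformDimension.result.1, fun φ hφ μ hμ => ?_⟩
  filter_upwards [UniformDimension.result.2 φ hφ μ hμ,
    Displacement.result.2.2.2.2.2 φ hφ μ hμ, (SpecialPoints.result.2 φ hφ μ hμ).2.1,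
    Pool.Agent.Y989.HP.lower hφ hμ] with f hu hd hs hl
  obtain ⟨-, him, -, -, -⟩ := hd
  have hsw : dimH (sweptSides f ∩ {w | 0 < w.im}) ≤ 4 / 3 := hs.2.2.1
  -- upper bounds
  have hswr : sweptSides f ⊆ Set.range f := by
    rintro w ⟨t, hw, -⟩
    exact past_sub f t (sides_sub (past_closed f t) hw)
  have hpos : ∀ w ∈ Set.range f, 0 ≤ w.im := by
    rintro _ ⟨s, rfl⟩
    exact him s
  have hup1 : dimH (sweptSides f) ≤ 4 / 3 := by
    have h1 : sweptSides f ⊆ (sweptSides f ∩ {w | 0 < w.im}) ∪ line := by
      intro w hw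
      rcases (hpos w (hswr hw)).lt_or_eq with h | h
      · exact Or.inl ⟨hw, h⟩
      · exact Or.inr h.symm
    refine (dimH_mono h1).trans ?_
    rw [dimH_union]
    exact max_le hsw dim_line
  have hup2 : ∀ t : unitInterval, dimH (sides (f '' Set.Icc 0 t)) ≤ 4 / 3 := by
    intro t
    have h1 : sides (f '' Set.Icc 0 t) ⊆ sweptSides f ∪ {f t} := by
      intro w hw
      by_cases h : w = f t
      · exact Or.inr h
      · exact Or.inl ⟨t, hw, h⟩
    refine (dimH_mono h1).trans ?_
    rw [dimH_union, dimH_singleton]
    exact max_le hup1 (zero_le)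
  -- lower bounds
  have hper : ∀ t : unitInterval, 0 < t → ∀ r : ℝ, 0 < r →
      4 / 3 ≤ dimH (permanentSides f t ∩ halfDisc r) := by
    intro t ht r hr
    refine (hl t ht r hr).trans (dimH_mono ?_)
    rintro z ⟨h1, h2, h3⟩
    exact ⟨⟨(h3 t le_rfl).1, fun t' ht' => (h3 t' ht').2⟩, h1, h2⟩
  have hps : ∀ t : unitInterval, permanentSides f t ⊆ sides (f '' Set.Icc 0 t) :=
    fun t z hz => hz.2 t le_rfl
  have hsr : ∀ t : unitInterval, sides (f '' Set.Icc 0 t) ⊆ Set.range f :=
    fun t => (sides_sub (past_closed f t)).trans (past_sub f t)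
  have hlow2 : ∀ t : unitInterval, 0 < t → 4 / 3 ≤ dimH (sides (f '' Set.Icc 0 t)) :=
    fun t ht => (hper t ht 1 one_pos).trans
      (dimH_mono (Set.inter_subset_left.trans (hps t)))
  have hlow1 : 4 / 3 ≤ dimH (sweptSides f) := by
    have h1 : sides (f '' Set.Icc 0 1) ⊆ sweptSides f ∪ {f 1} := by
      intro w hw
      by_cases h : w = f 1
      · exact Or.inr h
      · exact Or.inl ⟨1, hw, h⟩
    have h2 := (hlow2 1 zero_lt_one).trans (dimH_mono h1)
    rw [dimH_union, dimH_singleton, max_eq_left (zero_le)] at h2
    exact h2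
  have hsweq : dimH (sweptSides f) = 4 / 3 := le_antisymm hup1 hlow1
  refine ⟨fun t ht => ?_, hsweq, times_dim hu hswr hsweq⟩
  have hseq : dimH (sides (f '' Set.Icc 0 t)) = 4 / 3 := le_antisymm (hup2 t) (hlow2 t ht)
  refine ⟨hseq, times_dim hu (hsr t) hseq, fun r hr => ?_⟩
  have hpeq : dimH (permanentSides f t ∩ halfDisc r) = 4 / 3 :=
    le_antisymm ((dimH_mono (Set.inter_subset_left.trans (hps t))).trans (hup2 t)) (hper t ht r hr)
  exact ⟨hpeq, times_dim hu (Set.inter_subset_left.trans ((hps t).trans (hsr t))) hpeq⟩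

end Pool.Agent.Results.MP_6c8efb_pr.SidesExact
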