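import Pool.Agent.Y996.TL.Main

/-!
Critical bond percolation on `ℤ²` (`p = 1/2`, the lattice is rotated by 45 degrees) in slit strips:
the exact probability, for all sizes, that three interfaces start at the tip of the slit and go to
the boundary (the tip is joined to the right side by an open path and separated from the left bank
of the slit by a dual-open path to the left side), and its conformally covariant limit.
-/

set_option autoImplicit false

namespace Pool.Agent.Results.MP_6c8efb_pr.SlitStripThreeLegs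

open MeasureTheory Finset Filter Topology

/-- edges of `ℤ²`: `(u,v,false)` joins `(u,v)` and `(u+1,v)`; `(u,v,true)` joins `(u,v)` and
`(u,v+1)`. -/
abbrev Edge := ℤ × ℤ × Bool

/-- configurations (`true` = open) -/
abbrev Conf := Edge → Bool

/-- `x` and `y` are the two ends of an open edge -/
def OpenAdj (ω : Conf) (x y : ℤ × ℤ) : Prop :=
  (y = (x.1 + 1, x.2) ∧ ω (x.1, x.2, false) = true) ∨
  (x = (y.1 + 1, y.2) ∧ ω (y.1, y.2, false) = true) ∨
  (y = (x.1, x.2 + 1) ∧ ω (x.1, x.2, true) = true) ∨
  (x = (y.1, y.2 + 1) ∧ ω (y.1, y.2, true) = true)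

/-- bond percolation at `p = 1/2`: independent fair coins on the edges -/
noncomputable def perc : Measure Conf :=
  Measure.infinitePi (fun _ : Edge => (PMF.uniformOfFintype Bool).toMeasure)

/-- The column of the vertex `(u,v)` is `u - v`, its height is `u + v`. -/
def col (x : ℤ × ℤ) : ℤ := x.1 - x.2

/-- The height of the vertex `(u,v)` is `u + v`. -/
def height (x : ℤ × ℤ) : ℤ := x.1 + x.2

/-- The vertices of the strip of the columns `0, …, a + b + 3`. -/
def InStrip (a b : ℕ) (x : ℤ × ℤ) : Prop := 0 ≤ col x ∧ col x ≤ a + b + 3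

/-- The vertices of the slit: the columns `a, …, a + 3` at the heights `≥ 1`. -/
def InSlit (a : ℕ) (x : ℤ × ℤ) : Prop := a ≤ col x ∧ col x ≤ a + 3 ∧ 1 ≤ height x

/-- Open edges of the slit strip: both ends are in the strip and not both are in the slit. -/
def SlitAdj (a b : ℕ) (ω : Conf) (x y : ℤ × ℤ) : Prop :=
  OpenAdj ω x y ∧ InStrip a b x ∧ InStrip a b y ∧ ¬ (InSlit a x ∧ InSlit a y)

/-- `x` and `y` are joined by an open path of the slit strip. -/
def Joined (a b : ℕ) (ω : Conf) (x y : ℤ × ℤ) : Prop := Relation.ReflTransGen (SlitAdj a b ω) x y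

/-- The tip of the slit (`a` odd): the vertex of the column `a + 2` and the height `1`. -/
def tip (a : ℕ) : ℤ × ℤ := ((a + 3) / 2, -((a + 1) / 2))

/-- The three leg event: the tip is joined to the right side of the strip (the column `a + b + 3`),
and the left bank of the slit (the column `a` at the heights `≥ 1`) is not. -/
def ThreeLegs (a b : ℕ) : Set Conf :=
  {ω | (∃ y, col y = a + b + 3 ∧ Joined a b ω (tip a) y) ∧
    ¬ ∃ x y, col x = a ∧ 1 ≤ height x ∧ col y = a + b + 3 ∧ Joined a b ω x y}

/-- rising factorial `s (s+1) ⋯ (s+k-1)` -/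
noncomputable def rising (s : ℝ) (k : ℕ) : ℝ := ∏ i ∈ range k, (s + i)

/-- **Three legs at the tip of a slit.** The exact probability for all odd `a`, `b`, and the limit:
the probability times `(a b (a + b)) ^ (1/6)` tends to `2 √π Γ(5/3) / Γ(1/3)²` when `a`, `b → ∞`
in any way. -/
theorem result :
    (∀ a b : ℕ, Odd a → Odd b → perc.real (ThreeLegs a b) =
      4 / 3 * (rising (1/3) (a+1) * rising (1/3) (b+1) * rising (1/2) (a+b+3)) /
        (rising (1/2) (a+1) * rising (1/2) (b+1) * rising (2/3) (a+b+3))) ∧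
    (∀ a b : ℕ → ℕ, (∀ n, Odd (a n)) → (∀ n, Odd (b n)) → Tendsto a atTop atTop →
      Tendsto b atTop atTop →
      Tendsto (fun n => perc.real (ThreeLegs (a n) (b n)) *
        ((a n : ℝ) * b n * (a n + b n)) ^ ((1:ℝ)/6)) atTop
        (𝓝 (2 * Real.sqrt Real.pi * Real.Gamma (5/3) / Real.Gamma (1/3) ^ 2))) := by
  have hJ : ∀ (a b : ℕ) (ω : Conf) (x y : ℤ × ℤ),
      Joined a b ω x y ↔ Relation.ReflTransGen (Pool.Agent.Y996.TL.Adj5 a b ω) x y :=
    fun a b ω x y => Iff.rfl
  have ht : ∀ a : ℕ, tip a = Pool.Agent.Y996.TL.tip5 a := by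
    intro a
    unfold tip Pool.Agent.Y996.TL.tip5
    push_cast
    rfl
  have hE : ∀ a b : ℕ, ThreeLegs a b = Pool.Agent.Y996.TL.Legs a b := by
    intro a b
    ext ω
    unfold ThreeLegs Pool.Agent.Y996.TL.Legs Pool.Agent.Y996.TL.TipR Pool.Agent.Y996.TL.BankR
    rw [ht]
    rfl
  have hp : ∀ a b : ℕ, perc.real (ThreeLegs a b) =
      Pool.Agent.H988R2.Perc.perc.real (Pool.Agent.Y996.TL.Legs a b) := fun a b => by
    rw [hE]
    rfl
  refine ⟨fun a b ha hb => ?_, fun a b ha hb ta tb => ?_⟩
  · rw [hp]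
    exact Pool.Agent.Y996.TL.exact_ris a b ha hb
  · simp only [hp]
    exact Pool.Agent.Y996.TL.limit3 a b ha hb ta tb

end Pool.Agent.Results.MP_6c8efb_pr.SlitStripThreeLegs
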